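import Mathlib

/-!
Largest negative primitive roots: definitions and criteria.
-/

set_option autoImplicit false

namespace Q262.Neg3

/-- `g` is a primitive root modulo `p`: `p ∤ g` and every nonzero residue class modulo `p` is a
power of the class of `g`. -/
def IsPR (g : ℤ) (p : ℕ) : Prop :=
  ¬ (p : ℤ) ∣ g ∧ ∀ x : ZMod p, x ≠ 0 → ∃ k : ℕ, (g : ZMod p) ^ k = x

/-- `a` is the largest negative primitive root modulo `p`. -/
def LargestNeg (a : ℤ) (p : ℕ) : Prop :=
  IsPR a p ∧ ∀ b : ℤ, a < b → b < 0 → ¬ IsPR b p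

/-- The primes with largest negative primitive root `-3`. -/
def S3 (p : ℕ) : Prop := p.Prime ∧ LargestNeg (-3) p

theorem card_nonzero (p : ℕ) [Fact p.Prime] :
    Fintype.card {x : ZMod p // x ≠ 0} = p - 1 := by
  rw [Fintype.card_subtype_compl, Fintype.card_subtype_eq, ZMod.card]

theorem isPR_iff {g : ℤ} {p : ℕ} (hp : p.Prime) (hg : ¬ (p : ℤ) ∣ g) :
    IsPR g p ↔ orderOf (g : ZMod p) = p - 1 := by
  haveI : Fact p.Prime := ⟨hp⟩
  have hg0 : (g : ZMod p) ≠ 0 := by
    rwa [Ne, ZMod.intCast_zmod_eq_zero_iff_dvd]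
  have hpow : (g : ZMod p) ^ (p - 1) = 1 := ZMod.pow_card_sub_one_eq_one hg0
  have hp1 : 0 < p - 1 := Nat.sub_pos_of_lt hp.one_lt
  have hfin : IsOfFinOrder (g : ZMod p) := isOfFinOrder_iff_pow_eq_one.2 ⟨p - 1, hp1, hpow⟩
  have hord : 0 < orderOf (g : ZMod p) := hfin.orderOf_pos
  constructor
  · rintro ⟨_, h⟩
    apply le_antisymm (Nat.le_of_dvd hp1 (orderOf_dvd_of_pow_eq_one hpow))
    -- the map from Fin (orderOf g) onto the nonzero elements
    have hsurj : Function.Surjective (fun k : Fin (orderOf (g : ZMod p)) =>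
        (⟨(g : ZMod p) ^ (k : ℕ), pow_ne_zero _ hg0⟩ : {x : ZMod p // x ≠ 0})) := by
      rintro ⟨x, hx⟩
      obtain ⟨k, hk⟩ := h x hx
      refine ⟨⟨k % orderOf (g : ZMod p), Nat.mod_lt _ hord⟩, ?_⟩
      apply Subtype.ext
      simp only
      rw [pow_mod_orderOf, hk]
    have := Fintype.card_le_of_surjective _ hsurj
    rwa [Fintype.card_fin, card_nonzero] at this
  · intro h
    refine ⟨hg, ?_⟩
    have hinj : Function.Injective (fun k : Fin (orderOf (g : ZMod p)) =>
        (⟨(g : ZMod p) ^ (k : ℕ), pow_ne_zero _ hg0⟩ : {x : ZMod p // x ≠ 0})) := by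
      intro a b hab
      rw [Subtype.mk.injEq] at hab
      have := pow_injOn_Iio_orderOf (x := (g : ZMod p)) (Set.mem_Iio.2 a.2) (Set.mem_Iio.2 b.2) hab
      exact Fin.ext this
    have hcard : Fintype.card (Fin (orderOf (g : ZMod p))) =
        Fintype.card {x : ZMod p // x ≠ 0} := by
      rw [Fintype.card_fin, card_nonzero, h]
    have hbij := (Fintype.bijective_iff_injective_and_card _).2 ⟨hinj, hcard⟩
    intro x hx
    obtain ⟨k, hk⟩ := hbij.2 ⟨x, hx⟩
    exact ⟨k, congrArg Subtype.val hk⟩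

/-- Not a primitive root when a proper power is one. -/
theorem not_isPR_of_pow {g : ℤ} {p e : ℕ} (hp : p.Prime) (he0 : 0 < e) (he : e < p - 1)
    (h : (g : ZMod p) ^ e = 1) : ¬ IsPR g p := by
  intro hg
  have h1 := (isPR_iff hp hg.1).1 hg
  have h2 := Nat.le_of_dvd he0 (orderOf_dvd_of_pow_eq_one h)
  omega

/-- Primitive root criterion. -/
theorem isPR_of {g : ℤ} {p : ℕ} (hp : p.Prime) (hg : ¬ (p : ℤ) ∣ g)
    (h : ∀ q : ℕ, q.Prime → q ∣ p - 1 → (g : ZMod p) ^ ((p - 1) / q) ≠ 1) : IsPR g p := by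
  haveI : Fact p.Prime := ⟨hp⟩
  have hg0 : (g : ZMod p) ≠ 0 := by
    rwa [Ne, ZMod.intCast_zmod_eq_zero_iff_dvd]
  rw [isPR_iff hp hg]
  exact orderOf_eq_of_pow_and_pow_div_prime (Nat.sub_pos_of_lt hp.one_lt)
    (ZMod.pow_card_sub_one_eq_one hg0) h

/-- `-3` is not a square modulo `p ≡ 2 mod 3`, `p > 3`. -/
theorem neg_three_pow {p : ℕ} (hp : p.Prime) (h3 : p % 3 = 2) (hp3 : 3 < p) :
    ((-3 : ℤ) : ZMod p) ^ ((p - 1) / 2) ≠ 1 := by
  haveI : Fact p.Prime := ⟨hp⟩
  haveI : Fact (2 < p) := ⟨by omega⟩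
  have h30 : ((-3 : ℤ) : ZMod p) ≠ 0 := by
    rw [Ne, ZMod.intCast_zmod_eq_zero_iff_dvd, Int.dvd_neg]
    intro h
    have h1 : p ∣ 3 := by exact_mod_cast h
    have := Nat.le_of_dvd (by norm_num) h1
    omega
  intro h
  have hodd : p % 2 = 1 := by
    rcases hp.eq_two_or_odd with h2 | h2
    · omega
    · exact h2
  have hpp : (p - 1) / 2 = p / 2 := by omega
  rw [hpp] at h
  obtain ⟨t, ht⟩ := (ZMod.euler_criterion p h30).2 h
  -- t² = -3, so w = (-1+t)/2 is a nontrivial cube root of unity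
  have h2 : (2 : ZMod p) ≠ 0 := by
    intro h2
    have h4 : ((2 : ℕ) : ZMod p) = 0 := by exact_mod_cast h2
    rw [ZMod.natCast_eq_zero_iff] at h4
    have := Nat.le_of_dvd (by norm_num) h4
    omega
  have h3' : (3 : ZMod p) ≠ 0 := by
    intro h2
    have h4 : ((3 : ℕ) : ZMod p) = 0 := by exact_mod_cast h2
    rw [ZMod.natCast_eq_zero_iff] at h4
    have := Nat.le_of_dvd (by norm_num) h4
    omega
  have ht' : t * t = -3 := by rw [← ht]; push_cast; ring
  set w : ZMod p := (-1 + t) / 2 with hw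
  have hw2 : 2 * w = -1 + t := by rw [hw]; field_simp
  have hww : w ^ 2 + w + 1 = 0 := by
    have h4 : (4 : ZMod p) * (w ^ 2 + w + 1) = 0 := by
      have : (4 : ZMod p) * (w ^ 2 + w + 1) = (2 * w) * (2 * w) + 2 * (2 * w) + 4 := by ring
      rw [this, hw2]
      linear_combination ht'
    have h40 : (4 : ZMod p) ≠ 0 := by
      have : (4 : ZMod p) = 2 * 2 := by norm_num
      rw [this]
      exact mul_ne_zero h2 h2
    exact (mul_eq_zero.1 h4).resolve_left h40
  have hw3 : w ^ 3 = 1 := by linear_combination (w - 1) * hww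
  have hw1 : w ≠ 1 := by
    intro h1
    rw [h1] at hww
    apply h3'
    linear_combination hww
  have hord : orderOf w = 3 := orderOf_eq_prime hw3 hw1
  have hw0 : w ≠ 0 := by
    intro h0
    rw [h0] at hw3
    norm_num at hw3
  have hdvd : 3 ∣ p - 1 := by
    rw [← hord]
    exact orderOf_dvd_of_pow_eq_one (ZMod.pow_card_sub_one_eq_one hw0)
  omega

theorem not_isPR_neg_one {p : ℕ} (hp : p.Prime) (hp3 : 3 < p) : ¬ IsPR (-1) p :=
  not_isPR_of_pow (e := 2) hp (by norm_num) (by
    have : p ≠ 4 := by rintro rfl; revert hp; decide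
    omega) (by norm_num)

theorem mod_pow_eq {g e p : ℕ} : g ^ e % p = 1 → ((g : ℕ) : ZMod p) ^ e = 1 := by
  intro h
  rcases Nat.lt_or_ge 1 p with hp | hp
  · have h1 : g ^ e ≡ 1 [MOD p] := by
      unfold Nat.ModEq
      rw [h, Nat.mod_eq_of_lt hp]
    have := (ZMod.natCast_eq_natCast_iff _ _ _).2 h1
    push_cast at this
    exact this
  · interval_cases p
    · rw [Nat.mod_zero] at h
      have : (((g ^ e : ℕ)) : ZMod 0) = ((1 : ℕ) : ZMod 0) := by rw [h]
      push_cast at this
      exact this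
    · rw [Nat.mod_one] at h
      omega

theorem pow_eq_mod {g e p : ℕ} (hp : 1 < p) : ((g : ℕ) : ZMod p) ^ e = 1 → g ^ e % p = 1 := by
  intro h
  have h1 : ((g ^ e : ℕ) : ZMod p) = ((1 : ℕ) : ZMod p) := by push_cast; exact h
  have h2 := (ZMod.natCast_eq_natCast_iff _ _ _).1 h1
  unfold Nat.ModEq at h2
  rwa [Nat.mod_eq_of_lt hp] at h2

/-- Membership criterion. -/
theorem s3_of {p : ℕ} (hp : p.Prime) (hp3 : 3 < p) (h3 : p % 3 = 2)
    (hodd : ∀ q : ℕ, q.Prime → q ≠ 2 → q ∣ p - 1 → 3 ^ ((p - 1) / q) % p ≠ 1)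
    (htwo : p % 8 = 1 ∨ p % 8 = 3 ∨
      ∃ e, 0 < e ∧ e < p - 1 ∧ e % 2 = 0 ∧ 2 ^ e % p = 1) : S3 p := by
  haveI : Fact p.Prime := ⟨hp⟩
  refine ⟨hp, ?_, ?_⟩
  · refine isPR_of hp ?_ ?_
    · rw [Int.dvd_neg]
      intro h
      have h1 : p ∣ 3 := by exact_mod_cast h
      have := Nat.le_of_dvd (by norm_num) h1
      omega
    · intro q hq hqd
      by_cases hq2 : q = 2
      · rw [hq2]; exact neg_three_pow hp h3 hp3
      · intro h
        apply hodd q hq hq2 hqd
        apply pow_eq_mod (by omega)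
        have heven : Even ((p - 1) / q) := by
          have hp2 : 2 ∣ p - 1 := by
            rcases hp.eq_two_or_odd with h2 | h2
            · omega
            · omega
          obtain ⟨m, hm⟩ := hqd
          rw [hm, Nat.mul_div_cancel_left _ hq.pos]
          rw [hm] at hp2
          have : 2 ∣ m := by
            rcases (Nat.Prime.dvd_mul Nat.prime_two).1 hp2 with h5 | h5
            · exact absurd ((Nat.prime_dvd_prime_iff_eq Nat.prime_two hq).1 h5).symm hq2
            · exact h5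
          exact even_iff_two_dvd.2 this
        rw [Int.cast_neg, heven.neg_pow] at h
        exact_mod_cast h
  · intro b hb1 hb2
    have : b = -1 ∨ b = -2 := by omega
    rcases this with rfl | rfl
    · exact not_isPR_neg_one hp hp3
    · rcases htwo with h | h | ⟨e, he0, he1, he2, he3⟩
      · refine not_isPR_of_pow (e := p / 2) hp (by omega) (by omega) ?_
        have h20 : ((-2 : ℤ) : ZMod p) ≠ 0 := by
          rw [Ne, ZMod.intCast_zmod_eq_zero_iff_dvd, Int.dvd_neg]
          intro h5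
          have h1 : p ∣ 2 := by exact_mod_cast h5
          have := Nat.le_of_dvd (by norm_num) h1
          omega
        rw [← ZMod.euler_criterion p h20]
        have := (ZMod.exists_sq_eq_neg_two_iff (p := p) (by omega)).2 (Or.inl h)
        simpa using this
      · refine not_isPR_of_pow (e := p / 2) hp (by omega) (by omega) ?_
        have h20 : ((-2 : ℤ) : ZMod p) ≠ 0 := by
          rw [Ne, ZMod.intCast_zmod_eq_zero_iff_dvd, Int.dvd_neg]
          intro h5
          have h1 : p ∣ 2 := by exact_mod_cast h5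
          have := Nat.le_of_dvd (by norm_num) h1
          omega
        rw [← ZMod.euler_criterion p h20]
        have := (ZMod.exists_sq_eq_neg_two_iff (p := p) (by omega)).2 (Or.inr h)
        simpa using this
      · refine not_isPR_of_pow hp he0 he1 ?_
        rw [Int.cast_neg, (Nat.even_iff.2 he2).neg_pow]
        have := mod_pow_eq he3
        exact_mod_cast this

end Q262.Neg3
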