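import Pool.Agent.Q262.Neg3.Sound

/-!
No prime between 51459203 and 51460433 has largest negative primitive root `-3`.
-/

set_option autoImplicit false
set_option maxRecDepth 100000

namespace Q262.Neg3

/-- primality test -/
def isP (q : ℕ) : Bool :=
  (Nat.blt q 8192 && okr q) || (Nat.blt 1 q && (Nat.blt q 51739249 && Nat.beq (Nat.gcd q Z) 1))

theorem isP_prime {q : ℕ} (h : isP q = true) : q.Prime := by
  unfold isP at h
  rw [Bool.or_eq_true, Bool.and_eq_true, Bool.and_eq_true, Bool.and_eq_true, Nat.blt_eq,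
    Nat.blt_eq, Nat.blt_eq] at h
  rcases h with h | h
  · exact okr_prime h.1 h.2
  · exact prime_of_coprime h.1 h.2.1 (Nat.eq_of_beq_eq_true h.2.2)

/-- `-3` is not a primitive root -/
def chk3 (x r : ℕ) : Bool :=
  Nat.beq (pwg (x - 3) ((x - 1) / r) x) 1 && Nat.blt 0 ((x - 1) / r) && Nat.blt ((x - 1) / r) (x - 1)

theorem cast_sub_three {x : ℕ} (hx : 3 ≤ x) : (((x - 3 : ℕ)) : ZMod x) = ((-3 : ℤ) : ZMod x) := by
  rw [Nat.cast_sub hx, ZMod.natCast_self]
  push_cast
  ring

theorem cast_sub_two {x : ℕ} (hx : 2 ≤ x) : (((x - 2 : ℕ)) : ZMod x) = ((-2 : ℤ) : ZMod x) := by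
  rw [Nat.cast_sub hx, ZMod.natCast_self]
  push_cast
  ring

theorem not_s3_of_chk3 {x r : ℕ} (hx : 3 ≤ x) (h : chk3 x r = true) : ¬ S3 x := by
  unfold chk3 at h
  rw [Bool.and_eq_true, Bool.and_eq_true, Nat.blt_eq, Nat.blt_eq] at h
  obtain ⟨⟨h1, h2⟩, h3⟩ := h
  have h4 := Nat.eq_of_beq_eq_true h1
  rw [pwg_eq] at h4
  have h5 := mod_pow_eq h4
  rw [cast_sub_three hx] at h5
  rintro ⟨hp, hS⟩
  exact not_isPR_of_pow hp h2 h3 h5 hS.1

/-- `-2` is a primitive root -/
def chk2 (x : ℕ) (l : List ℕ) : Bool :=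
  isP x && (Nat.beq l.prod (x - 1) &&
    l.all (fun q => isP q && !Nat.beq (pwg (x - 2) ((x - 1) / q) x) 1))

theorem not_s3_of_chk2 {x : ℕ} {l : List ℕ} (hx : 2 < x) (h : chk2 x l = true) : ¬ S3 x := by
  unfold chk2 at h
  rw [Bool.and_eq_true, Bool.and_eq_true, List.all_eq_true] at h
  obtain ⟨h1, h2, h3⟩ := h
  have hp := isP_prime h1
  have hprod := Nat.eq_of_beq_eq_true h2
  rintro ⟨_, hS⟩
  refine hS.2 (-2) (by norm_num) (by norm_num) ?_
  refine isPR_of hp ?_ ?_
  · rw [Int.dvd_neg]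
    intro h5
    have h6 : x ∣ 2 := by exact_mod_cast h5
    have := Nat.le_of_dvd (by norm_num) h6
    omega
  · intro q hq hqd
    have hql : q ∈ l := by
      rw [← hprod] at hqd
      obtain ⟨a, ha, hqa⟩ := (Prime.dvd_prod_iff hq.prime).1 hqd
      have h7 := h3 a ha
      rw [Bool.and_eq_true] at h7
      have : q = a := (Nat.prime_dvd_prime_iff_eq hq (isP_prime h7.1)).1 hqa
      rw [this]
      exact ha
    have h7 := h3 q hql
    rw [Bool.and_eq_true] at h7
    intro h8
    rw [← cast_sub_two hx.le] at h8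
    have h9 := pow_eq_mod (by omega) h8
    rw [pwg_eq, h9] at h7
    exact absurd h7.2 (by decide)

/-- compositeness test -/
def comp (x : ℕ) : Bool := !Nat.beq (pwg 2 (x - 1) x) 1

theorem not_s3_of_comp {x : ℕ} (hx : 3 ≤ x) (h : comp x = true) : ¬ S3 x := by
  unfold comp at h
  rintro ⟨hp, _⟩
  have : Fact x.Prime := ⟨hp⟩
  have h2 : ((2 : ℕ) : ZMod x) ≠ 0 := by
    intro h4
    rw [ZMod.natCast_eq_zero_iff] at h4
    have := Nat.le_of_dvd (by norm_num) h4
    omega
  have h3 := pow_eq_mod (by omega) (ZMod.pow_card_sub_one_eq_one h2)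
  rw [pwg_eq, h3] at h
  exact absurd h (by decide)

/-- the special primes -/
def spec : List ℕ := [51459293, 51459371, 51459413, 51459509, 51459557, 51459773, 51459869,
  51459887, 51460001, 51460133, 51460247, 51460301, 51460349, 51460391, 51460397]

/-- the test for the numbers in the gap -/
def gapok (x : ℕ) : Bool := comp x || (chk3 x 2 || spec.any (Nat.beq x))

theorem gap_chk1 : ∀ i : ℕ, i < 400 → gapok (51459204 + i) = true := by decide +kernel
theorem gap_chk2 : ∀ i : ℕ, i < 400 → gapok (51459604 + i) = true := by decide +kernel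
theorem gap_chk3 : ∀ i : ℕ, i < 429 → gapok (51460004 + i) = true := by decide +kernel

theorem spec_ok : ∀ x ∈ spec, ¬ S3 x := by
  intro x hx
  simp only [spec, List.mem_cons, List.not_mem_nil, or_false] at hx
  rcases hx with rfl | rfl | rfl | rfl | rfl | rfl | rfl | rfl | rfl | rfl | rfl | rfl | rfl |
    rfl | rfl
  · exact not_s3_of_chk2 (l := [2, 2, 12864823]) (by norm_num) (by decide +kernel)
  · exact not_s3_of_chk3 (r := 5) (by norm_num) (by decide +kernel)
  · exact not_s3_of_chk2 (l := [2, 2, 12864853]) (by norm_num) (by decide +kernel)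
  · exact not_s3_of_chk2 (l := [2, 2, 12864877]) (by norm_num) (by decide +kernel)
  · exact not_s3_of_chk3 (r := 23) (by norm_num) (by decide +kernel)
  · exact not_s3_of_chk2 (l := [2, 2, 7, 13, 109, 1297]) (by norm_num) (by decide +kernel)
  · exact not_s3_of_chk2 (l := [2, 2, 12864967]) (by norm_num) (by decide +kernel)
  · exact not_s3_of_chk2 (l := [2, 67, 384029]) (by norm_num) (by decide +kernel)
  · exact not_s3_of_chk3 (r := 5) (by norm_num) (by decide +kernel)
  · exact not_s3_of_chk2 (l := [2, 2, 19, 677107]) (by norm_num) (by decide +kernel)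
  · exact not_s3_of_chk3 (r := 19) (by norm_num) (by decide +kernel)
  · exact not_s3_of_chk2 (l := [2, 2, 5, 5, 47, 10949]) (by norm_num) (by decide +kernel)
  · exact not_s3_of_chk2 (l := [2, 2, 12865087]) (by norm_num) (by decide +kernel)
  · exact not_s3_of_chk2 (l := [2, 5, 59, 87221]) (by norm_num) (by decide +kernel)
  · exact not_s3_of_chk2 (l := [2, 2, 13, 989623]) (by norm_num) (by decide +kernel)

theorem not_s3_of_gapok {x : ℕ} (hx : 3 ≤ x) (h : gapok x = true) : ¬ S3 x := by
  unfold gapok at h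
  rw [Bool.or_eq_true, Bool.or_eq_true, List.any_eq_true] at h
  rcases h with h | h | ⟨y, hy, hxy⟩
  · exact not_s3_of_comp hx h
  · exact not_s3_of_chk3 hx h
  · rw [Nat.eq_of_beq_eq_true hxy]
    exact spec_ok y hy

theorem gap {x : ℕ} (h1 : 51459203 < x) (h2 : x < 51460433) : ¬ S3 x := by
  apply not_s3_of_gapok (by omega)
  rcases Nat.lt_or_ge x 51459604 with h | h
  · have := gap_chk1 (x - 51459204) (by omega)
    rwa [Nat.add_sub_cancel' (by omega)] at this
  · rcases Nat.lt_or_ge x 51460004 with h' | h'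
    · have := gap_chk2 (x - 51459604) (by omega)
      rwa [Nat.add_sub_cancel' (by omega)] at this
    · have := gap_chk3 (x - 51460004) (by omega)
      rwa [Nat.add_sub_cancel' (by omega)] at this

/-- one-element chunk -/
theorem s3_end : S3 51460433 := by
  refine s3_of (isP_prime (by decide +kernel)) (by norm_num) (by norm_num) ?_ (Or.inl (by norm_num))
  intro q hq hq2 hqd
  have h1 : (51460433 - 1 : ℕ) = 2 * (2 * (2 * (2 * 3216277))) := by norm_num
  rw [h1] at hqd
  have h2 : ∀ {m : ℕ}, q ∣ 2 * m → q ∣ m := by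
    intro m hm
    rcases (Nat.Prime.dvd_mul hq).1 hm with h3 | h3
    · exact absurd ((Nat.prime_dvd_prime_iff_eq hq Nat.prime_two).1 h3) hq2
    · exact h3
  have h3 : q = 3216277 :=
    (Nat.prime_dvd_prime_iff_eq hq (isP_prime (by decide +kernel))).1 (h2 (h2 (h2 (h2 hqd))))
  rw [h3]
  norm_num

theorem s3_start : S3 51459203 := by
  refine s3_of (isP_prime (by decide +kernel)) (by norm_num) (by norm_num) ?_
    (Or.inr (Or.inl (by norm_num)))
  intro q hq hq2 hqd
  have h1 : (51459203 - 1 : ℕ) = 2 * 25729601 := by norm_num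
  rw [h1] at hqd
  have h2 : ∀ {m : ℕ}, q ∣ 2 * m → q ∣ m := by
    intro m hm
    rcases (Nat.Prime.dvd_mul hq).1 hm with h3 | h3
    · exact absurd ((Nat.prime_dvd_prime_iff_eq hq Nat.prime_two).1 h3) hq2
    · exact h3
  have h3 : q = 25729601 :=
    (Nat.prime_dvd_prime_iff_eq hq (isP_prime (by decide +kernel))).1 (h2 hqd)
  rw [h3]
  norm_num

end Q262.Neg3
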