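import Pool.Agent.Q262.Neg3.Total
import Pool.Agent.Q262.Neg3.Gap

/-!
The failure of `p_{n+1} < p_n^{1+1/n}` for the largest negative primitive root `-3`.
-/

set_option autoImplicit false

namespace Q262.Neg3

/-- `a` is not a perfect power. -/
def NotPerfectPower (a : ℤ) : Prop := ¬ ∃ (x : ℤ) (m : ℕ), 1 < m ∧ a = x ^ m

/-- `p = p_n(a)`, the `n`-th prime (counted from `1`) for which `a` is the largest negative
primitive root. -/
def IsTerm (a : ℤ) (n p : ℕ) : Prop :=
  p.Prime ∧ LargestNeg a p ∧ {q : ℕ | q < p ∧ q.Prime ∧ LargestNeg a q}.ncard + 1 = n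

theorem finite_below (a : ℤ) (p : ℕ) : {q : ℕ | q < p ∧ q.Prime ∧ LargestNeg a q}.Finite :=
  (Set.finite_lt_nat p).subset fun _ hq => hq.1

theorem isTerm_unique {a : ℤ} {n p q : ℕ} (hp : IsTerm a n p) (hq : IsTerm a n q) : p = q := by
  have key : ∀ {p q : ℕ}, IsTerm a n p → IsTerm a n q → p < q → False := by
    intro p q hp hq hlt
    have h1 : insert p {r : ℕ | r < p ∧ r.Prime ∧ LargestNeg a r} ⊆
        {r : ℕ | r < q ∧ r.Prime ∧ LargestNeg a r} := by
      intro r hr
      rcases Set.mem_insert_iff.1 hr with rfl | hr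
      · exact ⟨hlt, hp.1, hp.2.1⟩
      · exact ⟨hr.1.trans hlt, hr.2⟩
    have h2 := Set.ncard_le_ncard h1 (finite_below a q)
    rw [Set.ncard_insert_of_notMem (fun h => lt_irrefl _ h.1) (finite_below a p), hp.2.2] at h2
    have := hq.2.2
    omega
  rcases lt_trichotomy p q with h | h | h
  · exact (key hp hq h).elim
  · exact h
  · exact (key hq hp h).elim

open Classical in
theorem cnt_eq (x : ℕ) : cnt x = {q : ℕ | q < x + 1 ∧ q.Prime ∧ LargestNeg (-3) q}.ncard := by
  unfold cnt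
  rw [Nat.count_eq_card_filter_range, ← Set.ncard_coe_finset]
  congr 1
  ext q
  rw [Finset.mem_coe, Finset.mem_filter, Finset.mem_range]
  exact Iff.rfl

theorem term_start : IsTerm (-3) (cnt 51459203) 51459203 := by
  refine ⟨s3_start.1, s3_start.2, ?_⟩
  rw [cnt_eq]
  have h : {q : ℕ | q < 51459203 + 1 ∧ q.Prime ∧ LargestNeg (-3) q} =
      insert 51459203 {q : ℕ | q < 51459203 ∧ q.Prime ∧ LargestNeg (-3) q} := by
    ext q
    constructor
    · rintro ⟨h1, h2⟩
      rcases Nat.lt_succ_iff_lt_or_eq.1 h1 with h3 | h3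
      · exact Set.mem_insert_of_mem _ ⟨h3, h2⟩
      · exact Set.mem_insert_iff.2 (Or.inl h3)
    · intro hq
      rcases Set.mem_insert_iff.1 hq with rfl | hq
      · exact ⟨Nat.lt_succ_self _, s3_start⟩
      · exact ⟨Nat.lt_succ_of_lt hq.1, hq.2⟩
  rw [h, Set.ncard_insert_of_notMem (fun h => lt_irrefl _ h.1) (finite_below _ _)]

theorem term_end : IsTerm (-3) (cnt 51459203 + 1) 51460433 := by
  refine ⟨s3_end.1, s3_end.2, ?_⟩
  rw [cnt_eq]
  congr 2
  ext q
  constructor
  · rintro ⟨h1, h2⟩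
    refine ⟨?_, h2⟩
    by_contra h3
    exact gap (by omega) h1 h2
  · rintro ⟨h1, h2⟩
    exact ⟨by omega, h2⟩

theorem real_ineq {n : ℕ} (hn : 754346 ≤ n) :
    (51459203 : ℝ) ^ (1 + 1 / (n : ℝ)) < 51460433 := by
  have hn0 : (0 : ℝ) < n := by
    have : (0 : ℕ) < n := by omega
    exact_mod_cast this
  have hn' : (754346 : ℝ) ≤ n := by exact_mod_cast hn
  have h1 : (0 : ℝ) < 51459203 := by norm_num
  have h2 : (0 : ℝ) < 51460433 := by norm_num
  rw [Real.rpow_def_of_pos h1, ← Real.exp_log h2, Real.exp_lt_exp]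
  have h3 : Real.log 51459203 ≤ 26 * Real.log 2 := by
    have : (26 : ℝ) * Real.log 2 = Real.log (2 ^ 26) := by
      rw [Real.log_pow]; norm_num
    rw [this]
    exact Real.log_le_log h1 (by norm_num)
  have h4 := Real.log_two_lt_d9
  have h5 : 1 - (51460433 / 51459203 : ℝ)⁻¹ ≤ Real.log (51460433 / 51459203) :=
    Real.one_sub_inv_le_log_of_pos (by norm_num)
  rw [Real.log_div h2.ne' h1.ne'] at h5
  have h6 : Real.log 51459203 < n * (Real.log 51460433 - Real.log 51459203) := by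
    have h7 : (754346 : ℝ) * (1 - (51460433 / 51459203 : ℝ)⁻¹) ≤
        n * (Real.log 51460433 - Real.log 51459203) := by
      apply mul_le_mul hn' h5 _ hn0.le
      norm_num
    have h8 : (26 : ℝ) * 0.6931471808 <
        (754346 : ℝ) * (1 - (51460433 / 51459203 : ℝ)⁻¹) := by norm_num
    linarith
  have h9 : Real.log 51459203 * (1 + 1 / (n : ℝ)) =
      Real.log 51459203 + Real.log 51459203 / n := by
    field_simp
  rw [h9]
  have h10 : Real.log 51459203 / n < Real.log 51460433 - Real.log 51459203 := by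
    rw [div_lt_iff₀ hn0]
    linarith
  linarith

theorem npp : NotPerfectPower (-3) := by
  rintro ⟨x, m, hm, h⟩
  -- `3` divides `x`, hence `9` divides `-3`
  have h3 : (3 : ℤ) ∣ x ^ m := by rw [← h]; exact ⟨-1, by norm_num⟩
  have h4 : (3 : ℤ) ∣ x := Int.Prime.dvd_pow' (p := 3) (by norm_num) h3
  have h5 : (3 : ℤ) ^ 2 ∣ x ^ m := (pow_dvd_pow_of_dvd h4 2).trans (pow_dvd_pow x hm)
  rw [← h] at h5
  norm_num at h5

end Q262.Neg3
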