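import Pool.Agent.Q262.Neg3.Comp
import Pool.Agent.Q262.Neg3.Defs

/-!
Soundness of the kernel-friendly enumeration.
-/

set_option autoImplicit false

namespace Q262.Neg3

theorem pwg_eq (g e p : ℕ) : pwg g e p = g ^ e % p := by
  have h1 : e / 64 = (e / 4096) * 64 + e / 64 % 64 := by omega
  have h2 : e = (e / 64) * 64 + e % 64 := by omega
  show ((((g ^ (e / 4096) % p) ^ 64 * g ^ (e / 64 % 64)) % p) ^ 64 * g ^ (e % 64)) % p = _
  have a1 : (g ^ (e / 4096) % p) ^ 64 * g ^ (e / 64 % 64) ≡ g ^ (e / 64) [MOD p] := by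
    have : (g ^ (e / 4096) % p) ^ 64 * g ^ (e / 64 % 64) ≡
        (g ^ (e / 4096)) ^ 64 * g ^ (e / 64 % 64) [MOD p] :=
      Nat.ModEq.mul_right _ ((Nat.mod_modEq _ _).pow 64)
    refine this.trans ?_
    rw [← pow_mul, ← pow_add, ← h1]
  have a2 : (((g ^ (e / 4096) % p) ^ 64 * g ^ (e / 64 % 64)) % p) ^ 64 * g ^ (e % 64) ≡
      g ^ e [MOD p] := by
    have : (((g ^ (e / 4096) % p) ^ 64 * g ^ (e / 64 % 64)) % p) ^ 64 * g ^ (e % 64) ≡
        (g ^ (e / 64)) ^ 64 * g ^ (e % 64) [MOD p] :=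
      Nat.ModEq.mul_right _ (((Nat.mod_modEq _ _).trans a1).pow 64)
    refine this.trans ?_
    rw [← pow_mul, ← pow_add, ← h2]
  exact a2

theorem P89_dvd : ∀ r : ℕ, r < 90 → r.Prime → r ∣ P89 := by
  decide +kernel

theorem okr_small : ∀ r : ℕ, r < 90 → okr r = true → r.Prime := by
  decide +kernel

theorem okr_prime {r : ℕ} (hr : r < 8192) (h : okr r = true) : r.Prime := by
  by_cases h90 : r < 90
  · exact okr_small r h90 h
  · have hb : Nat.blt r 90 = false := by
      rw [Bool.eq_false_iff]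
      intro hb
      rw [Nat.blt_eq] at hb
      exact h90 hb
    have h1 : Nat.gcd r P89 = 1 := by
      have h2 := h
      unfold okr at h2
      rw [hb] at h2
      exact Nat.eq_of_beq_eq_true h2
    by_contra hnp
    have hmp : r.minFac.Prime := Nat.minFac_prime (by omega)
    have hsq : r.minFac ^ 2 ≤ r := Nat.minFac_sq_le_self (by omega) hnp
    have hlt : r.minFac < 91 := by
      by_contra hge
      push Not at hge
      have : 91 ^ 2 ≤ r.minFac ^ 2 := Nat.pow_le_pow_left hge 2
      omega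
    have h90' : r.minFac < 90 := by
      rcases Nat.lt_or_ge r.minFac 90 with h3 | h3
      · exact h3
      · exfalso
        have : r.minFac = 90 := by omega
        rw [this] at hmp
        exact absurd hmp (by decide)
    have hd := Nat.dvd_gcd (Nat.minFac_dvd r) (P89_dvd _ h90' hmp)
    rw [h1] at hd
    have := Nat.le_of_dvd (by norm_num) hd
    have := hmp.two_le
    omega

/-- the check for `Z`, on the numbers `lo ≤ q < lo + n` -/
def chkZ (lo n : ℕ) : Bool :=
  Nat.rec (motive := fun _ => Bool) true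
    (fun q ih =>
      Bool.rec (motive := fun _ => Bool)
        (Bool.rec (motive := fun _ => Bool)
          (Bool.rec (motive := fun _ => Bool) ih false (Nat.beq (Nat.mod P89 (Nat.add lo q)) 0))
          false (Nat.beq (Nat.gcd (Nat.add lo q) P89) 1))
        ih (Nat.beq (Nat.mod Z (Nat.add lo q)) 0)) n

theorem chkZ_spec (lo : ℕ) : ∀ n, chkZ lo n = true → ∀ q, lo ≤ q → q < lo + n → q.Prime → q ∣ Z := by
  intro n
  induction n with
  | zero => intro _ q hq; omega
  | succ n ih =>
    intro h q hlo hq hqp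
    have hstep : chkZ lo (n + 1) = Bool.rec (motive := fun _ => Bool)
        (Bool.rec (motive := fun _ => Bool)
          (Bool.rec (motive := fun _ => Bool) (chkZ lo n) false
            (Nat.beq (Nat.mod P89 (lo + n)) 0)) false
          (Nat.beq (Nat.gcd (lo + n) P89) 1))
        (chkZ lo n) (Nat.beq (Nat.mod Z (lo + n)) 0) := rfl
    rw [hstep] at h
    have hq' : q < lo + n ∨ q = lo + n := by omega
    cases hZ : Nat.beq (Nat.mod Z (lo + n)) 0 with
    | true =>
      rw [hZ] at h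
      rcases hq' with h1 | h1
      · exact ih h q hlo h1 hqp
      · rw [h1]
        exact Nat.dvd_of_mod_eq_zero (Nat.eq_of_beq_eq_true hZ)
    | false =>
      rw [hZ] at h
      cases hg : Nat.beq (Nat.gcd (lo + n) P89) 1 with
      | true => rw [hg] at h; exact absurd h Bool.false_ne_true
      | false =>
        rw [hg] at h
        cases hP : Nat.beq (Nat.mod P89 (lo + n)) 0 with
        | true => rw [hP] at h; exact absurd h Bool.false_ne_true
        | false =>
          rw [hP] at h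
          rcases hq' with h1 | h1
          · exact ih h q hlo h1 hqp
          · exfalso
            subst h1
            have hg1 : Nat.gcd (lo + n) P89 ≠ 1 := by
              intro h5; rw [h5] at hg; exact absurd hg (by decide)
            have hP1 : P89 % (lo + n) ≠ 0 := by
              intro h5
              have : Nat.mod P89 (lo + n) = 0 := h5
              rw [this] at hP; exact absurd hP (by decide)
            rcases (Nat.Prime.eq_one_or_self_of_dvd hqp _ (Nat.gcd_dvd_left (lo + n) P89)) with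
              h6 | h6
            · exact hg1 h6
            · apply hP1
              have := Nat.gcd_dvd_right (lo + n) P89
              rw [h6] at this
              exact Nat.mod_eq_zero_of_dvd this

theorem chkZ_0 : chkZ 0 480 = true := by decide +kernel

theorem chkZ_1 : chkZ 480 480 = true := by decide +kernel

theorem chkZ_2 : chkZ 960 480 = true := by decide +kernel

theorem chkZ_3 : chkZ 1440 480 = true := by decide +kernel

theorem chkZ_4 : chkZ 1920 480 = true := by decide +kernel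

theorem chkZ_5 : chkZ 2400 480 = true := by decide +kernel

theorem chkZ_6 : chkZ 2880 480 = true := by decide +kernel

theorem chkZ_7 : chkZ 3360 480 = true := by decide +kernel

theorem chkZ_8 : chkZ 3840 480 = true := by decide +kernel

theorem chkZ_9 : chkZ 4320 480 = true := by decide +kernel

theorem chkZ_10 : chkZ 4800 480 = true := by decide +kernel

theorem chkZ_11 : chkZ 5280 480 = true := by decide +kernel

theorem chkZ_12 : chkZ 5760 480 = true := by decide +kernel

theorem chkZ_13 : chkZ 6240 480 = true := by decide +kernel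

theorem chkZ_14 : chkZ 6720 473 = true := by decide +kernel

theorem dvd_Z {q : ℕ} (hq : q < 7193) (hqp : q.Prime) : q ∣ Z := by
  rcases Nat.lt_or_ge q 480 with h | h
  · exact chkZ_spec 0 480 chkZ_0 q (by omega) (by omega) hqp
  rcases Nat.lt_or_ge q 960 with h | h
  · exact chkZ_spec 480 480 chkZ_1 q (by omega) (by omega) hqp
  rcases Nat.lt_or_ge q 1440 with h | h
  · exact chkZ_spec 960 480 chkZ_2 q (by omega) (by omega) hqp
  rcases Nat.lt_or_ge q 1920 with h | h
  · exact chkZ_spec 1440 480 chkZ_3 q (by omega) (by omega) hqp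
  rcases Nat.lt_or_ge q 2400 with h | h
  · exact chkZ_spec 1920 480 chkZ_4 q (by omega) (by omega) hqp
  rcases Nat.lt_or_ge q 2880 with h | h
  · exact chkZ_spec 2400 480 chkZ_5 q (by omega) (by omega) hqp
  rcases Nat.lt_or_ge q 3360 with h | h
  · exact chkZ_spec 2880 480 chkZ_6 q (by omega) (by omega) hqp
  rcases Nat.lt_or_ge q 3840 with h | h
  · exact chkZ_spec 3360 480 chkZ_7 q (by omega) (by omega) hqp
  rcases Nat.lt_or_ge q 4320 with h | h
  · exact chkZ_spec 3840 480 chkZ_8 q (by omega) (by omega) hqp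
  rcases Nat.lt_or_ge q 4800 with h | h
  · exact chkZ_spec 4320 480 chkZ_9 q (by omega) (by omega) hqp
  rcases Nat.lt_or_ge q 5280 with h | h
  · exact chkZ_spec 4800 480 chkZ_10 q (by omega) (by omega) hqp
  rcases Nat.lt_or_ge q 5760 with h | h
  · exact chkZ_spec 5280 480 chkZ_11 q (by omega) (by omega) hqp
  rcases Nat.lt_or_ge q 6240 with h | h
  · exact chkZ_spec 5760 480 chkZ_12 q (by omega) (by omega) hqp
  rcases Nat.lt_or_ge q 6720 with h | h
  · exact chkZ_spec 6240 480 chkZ_13 q (by omega) (by omega) hqp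
  rcases Nat.lt_or_ge q 7200 with h | h
  · exact chkZ_spec 6720 473 chkZ_14 q (by omega) (by omega) hqp
  omega

theorem prime_of_coprime {x : ℕ} (h1 : 1 < x) (h2 : x < 51739249) (h : Nat.Coprime x Z) :
    x.Prime := by
  by_contra hnp
  have hmp : x.minFac.Prime := Nat.minFac_prime (by omega)
  have hsq : x.minFac ^ 2 ≤ x := Nat.minFac_sq_le_self (by omega) hnp
  have hlt : x.minFac < 7193 := by
    by_contra hge
    push Not at hge
    have : 7193 ^ 2 ≤ x.minFac ^ 2 := Nat.pow_le_pow_left hge 2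
    omega
  have hd := Nat.dvd_gcd (Nat.minFac_dvd x) (dvd_Z hlt hmp)
  rw [Nat.coprime_iff_gcd_eq_one.1 h] at hd
  have := Nat.le_of_dvd (by norm_num) hd
  have := hmp.two_le
  omega

theorem bool_rec_zero {b : Bool} {x v : ℕ}
    (h : Bool.rec (motive := fun _ => ℕ) 0 x b = v) (hv : v ≠ 0) : b = true ∧ x = v := by
  cases b with
  | true => exact ⟨rfl, h⟩
  | false => exact absurd h.symm hv

theorem bool_rec_zero' {b : Bool} {x v : ℕ}
    (h : Bool.rec (motive := fun _ => ℕ) x 0 b = v) (hv : v ≠ 0) : b = false ∧ x = v := by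
  cases b with
  | false => exact ⟨rfl, h⟩
  | true => exact absurd h.symm hv

theorem dvd_div_gcd {m r s : ℕ} (hr : r.Prime) (hs : s.Prime) (hrs : s ≠ r) (j : ℕ)
    (h : s ∣ m) : s ∣ m / Nat.gcd m (r ^ j) := by
  have hg : Nat.gcd m (r ^ j) ∣ m := Nat.gcd_dvd_left _ _
  have hgs : Nat.Coprime s (Nat.gcd m (r ^ j)) := by
    have h1 : Nat.Coprime s (r ^ j) :=
      Nat.Coprime.pow_right j ((Nat.coprime_primes hs hr).2 hrs)
    exact Nat.Coprime.coprime_dvd_right (Nat.gcd_dvd_right _ _) h1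
  have h2 : s ∣ Nat.gcd m (r ^ j) * (m / Nat.gcd m (r ^ j)) := by
    rwa [Nat.mul_div_cancel' hg]
  exact Nat.Coprime.dvd_of_dvd_mul_left hgs h2

theorem inner_spec (p q : ℕ) : ∀ (k D m : ℕ) (cont : ℕ → ℕ → ℕ) (v : ℕ),
    inner p q k D m cont = v → v ≠ 0 → m ≠ 0 →
    ∃ D' m', v = cont D' m' ∧ m' ≠ 0 ∧ m' ∣ m ∧
      ∀ s, s.Prime → s ∣ m → ¬ s ∣ m' → 3 ^ (q / s) % p ≠ 1 := by
  intro k
  induction k with
  | zero =>
    intro D m cont v h hv hm
    exact ⟨D, m, h.symm, hm, dvd_rfl, fun s _ h1 h2 => absurd h1 h2⟩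
  | succ k ih =>
    intro D m cont v h hv hm
    have h' : Bool.rec (motive := fun _ => ℕ) 0
        (Bool.rec (motive := fun _ => ℕ)
          (inner p q k (Nat.div D 8192) (Nat.div m (Nat.gcd m (Nat.pow (Nat.mod D 8192) 11))) cont)
          0 (Nat.beq (pwg 3 (Nat.div q (Nat.mod D 8192)) p) 1))
        (okr (Nat.mod D 8192)) = v := h
    obtain ⟨h1, h2⟩ := bool_rec_zero h' hv
    obtain ⟨h3, h4⟩ := bool_rec_zero' h2 hv
    have hr : (D % 8192).Prime := okr_prime (Nat.mod_lt _ (by norm_num)) h1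
    have hm' : m / Nat.gcd m ((D % 8192) ^ 11) ≠ 0 := by
      have hg : Nat.gcd m ((D % 8192) ^ 11) ∣ m := Nat.gcd_dvd_left _ _
      intro h0
      apply hm
      rw [← Nat.mul_div_cancel' hg, h0, Nat.mul_zero]
    obtain ⟨D', m', hv', hm0, hd, hs⟩ := ih _ _ cont v h4 hv hm'
    refine ⟨D', m', hv', hm0, hd.trans (Nat.div_dvd_of_dvd (Nat.gcd_dvd_left _ _)), ?_⟩
    intro s hsp hsm hsm'
    by_cases hsr : s = D % 8192
    · intro h5
      rw [pwg_eq] at h3
      have h6 : 3 ^ (Nat.div q (Nat.mod D 8192)) % p = 1 := by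
        rw [hsr] at h5
        exact h5
      rw [h6] at h3
      exact absurd h3 (by decide)
    · exact hs s hsp (dvd_div_gcd hr hsp hsr 11 hsm) hsm'

theorem fin_spec {p q c Q : ℕ} {cont : ℕ → ℕ} {v : ℕ} (h : fin p q c Q cont = v) (hv : v ≠ 0) :
    (c ≤ 1 ∧ v = cont (Q * p)) ∨ (1 < c ∧ 3 ^ (q / c) % p ≠ 1 ∧ v = cont (Q * (p * c))) := by
  have h' : Bool.rec (motive := fun _ => ℕ) (cont (Nat.mul Q p))
    (Bool.rec (motive := fun _ => ℕ) (cont (Nat.mul Q (Nat.mul p c))) 0
      (Nat.beq (Nat.mod (Nat.pow 3 (Nat.div q c)) p) 1))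
    (Nat.blt 1 c) = v := h
  cases hb : Nat.blt 1 c with
  | false =>
    rw [hb] at h'
    left
    refine ⟨?_, h'.symm⟩
    by_contra hc
    push Not at hc
    have : Nat.blt 1 c = true := by rw [Nat.blt_eq]; exact hc
    rw [this] at hb
    exact absurd hb (by decide)
  | true =>
    rw [hb] at h'
    right
    obtain ⟨h3, h4⟩ := bool_rec_zero' h' hv
    refine ⟨by rw [Nat.blt_eq] at hb; exact hb, ?_, h4.symm⟩
    intro h5
    have h6 : Nat.mod (Nat.pow 3 (Nat.div q c)) p = 1 := h5
    rw [h6] at h3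
    exact absurd h3 (by decide)

theorem okTwo_spec {p q D : ℕ} (h : okTwo p q D = true) (hq : q = p - 1) :
    p % 8 = 1 ∨ p % 8 = 3 ∨ ∃ e, 0 < e ∧ e < p - 1 ∧ e % 2 = 0 ∧ 2 ^ e % p = 1 := by
  have h' : Bool.rec (motive := fun _ => Bool)
    (Nat.beq (Nat.mod (Nat.div q (Nat.mod D 8192)) 2) 0 &&
      (Nat.blt 0 (Nat.div q (Nat.mod D 8192)) && (Nat.blt (Nat.div q (Nat.mod D 8192)) q &&
        Nat.beq (pwg 2 (Nat.div q (Nat.mod D 8192)) p) 1)))
    true (Nat.beq (Nat.land (Nat.shiftRight 10 (Nat.mod p 8)) 1) 1) = true := h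
  cases hb : Nat.beq (Nat.land (Nat.shiftRight 10 (Nat.mod p 8)) 1) 1 with
  | true =>
    have h8 : p % 8 < 8 := Nat.mod_lt _ (by norm_num)
    have hb' : Nat.beq (Nat.land (Nat.shiftRight 10 (p % 8)) 1) 1 = true := hb
    have key : ∀ x : ℕ, x < 8 → Nat.beq (Nat.land (Nat.shiftRight 10 x) 1) 1 = true →
        x = 1 ∨ x = 3 := by decide
    rcases key _ h8 hb' with h1 | h1
    · exact Or.inl h1
    · exact Or.inr (Or.inl h1)
  | false =>
    rw [hb] at h'
    have h'' : (Nat.beq (Nat.mod (Nat.div q (Nat.mod D 8192)) 2) 0 &&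
      (Nat.blt 0 (Nat.div q (Nat.mod D 8192)) && (Nat.blt (Nat.div q (Nat.mod D 8192)) q &&
        Nat.beq (pwg 2 (Nat.div q (Nat.mod D 8192)) p) 1))) = true := h'
    rw [Bool.and_eq_true, Bool.and_eq_true, Bool.and_eq_true] at h''
    obtain ⟨h1, h2, h3, h4⟩ := h''
    refine Or.inr (Or.inr ⟨q / (D % 8192), ?_, ?_, ?_, ?_⟩)
    · rw [Nat.blt_eq] at h2; exact h2
    · rw [Nat.blt_eq] at h3; rw [← hq]; exact h3
    · exact Nat.eq_of_beq_eq_true h1
    · rw [pwg_eq] at h4
      exact Nat.eq_of_beq_eq_true h4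

open Classical in
/-- the number of elements up to `x` -/
noncomputable def cnt (x : ℕ) : ℕ := Nat.count S3 (x + 1)

open Classical in
theorem cnt_lt {x y : ℕ} (h : x < y) (hy : S3 y) : cnt x + 1 ≤ cnt y := by
  unfold cnt
  rw [Nat.count_succ S3 y, if_pos hy]
  exact Nat.add_le_add_right (Nat.count_monotone _ h) 1

theorem run_spec : ∀ (n D p Q v : ℕ), run n D p Q = v → v ≠ 0 → v < 51739249 → p % 6 = 5 →
    Nat.Coprime Q Z ∧ p ≤ v ∧ v % 6 = 5 ∧ n + cnt p ≤ cnt v := by
  intro n
  induction n with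
  | zero =>
    intro D p Q v h hv hv' hp
    have h' : Bool.rec (motive := fun _ => ℕ) 0 p (Nat.beq (Nat.gcd Q Z) 1) = v := h
    obtain ⟨h1, h2⟩ := bool_rec_zero h' hv
    subst h2
    exact ⟨Nat.eq_of_beq_eq_true h1, le_rfl, hp, by omega⟩
  | succ n ih =>
    intro D p Q v h hv hv' hp
    obtain ⟨p', hp'⟩ : ∃ p', p' = p + 6 * (D % 8192 / 8) := ⟨_, rfl⟩
    have h' : Bool.rec (motive := fun _ => ℕ) 0
          (Bool.rec (motive := fun _ => ℕ) 0
            (inner p' (p' - 1) (D % 8192 % 8) (D / 8192)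
              ((p' - 1) / (Nat.gcd (p' - 1) 67108864))
              fun D2 c => fin p' (p' - 1) c Q (fun Q' => run n D2 p' Q'))
            (okTwo p' (p' - 1) (D / 8192)))
          (Nat.blt p p') = v := by rw [hp']; exact h
    obtain ⟨h1, h2⟩ := bool_rec_zero h' hv
    obtain ⟨h3, h4⟩ := bool_rec_zero h2 hv
    rw [Nat.blt_eq] at h1
    have hpp : p < p' := h1
    have hp6 : p' % 6 = 5 := by omega
    have hq0 : (p' - 1) / (Nat.gcd (p' - 1) 67108864) ≠ 0 := by
      have hg : Nat.gcd (p' - 1) 67108864 ∣ p' - 1 := Nat.gcd_dvd_left _ _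
      intro h0
      have : p' - 1 = 0 := by rw [← Nat.mul_div_cancel' hg, h0, Nat.mul_zero]
      omega
    obtain ⟨D2, c, hv2, hc0, hcd, hs⟩ := inner_spec _ _ _ _ _ _ _ h4 hv hq0
    have hcd' : c ∣ p' - 1 := hcd.trans (Nat.div_dvd_of_dvd (Nat.gcd_dvd_left _ _))
    have hodd : ∀ s, s.Prime → s ≠ 2 → s ∣ p' - 1 → ¬ s ∣ c → 3 ^ ((p' - 1) / s) % p' ≠ 1 := by
      intro s hsp hs2 hsd hsc
      apply hs s hsp _ hsc
      have h67 : (67108864 : ℕ) = 2 ^ 26 := by norm_num
      rw [h67]
      exact dvd_div_gcd Nat.prime_two hsp hs2 26 hsd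
    have htwo := okTwo_spec h3 rfl
    have hp3 : 3 < p' := by omega
    have hpm : p' % 3 = 2 := by omega
    rcases fin_spec hv2.symm hv with ⟨hc1, hv3⟩ | ⟨hc1, hc3, hv3⟩
    · obtain ⟨hcop, hle, hv6, hcnt⟩ := ih _ _ _ _ hv3.symm hv hv' hp6
      have hcp : Nat.Coprime p' Z := Nat.Coprime.coprime_dvd_left (Dvd.intro_left _ rfl) hcop
      have hprime : p'.Prime := prime_of_coprime (by omega) (by omega) hcp
      have hc : c = 1 := by omega
      have hS : S3 p' := by
        refine s3_of hprime hp3 hpm ?_ htwo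
        intro s hsp hs2 hsd
        apply hodd s hsp hs2 hsd
        rw [hc, Nat.dvd_one]
        exact hsp.one_lt.ne'
      have := cnt_lt hpp hS
      exact ⟨Nat.Coprime.coprime_dvd_left (Dvd.intro _ rfl) hcop, by omega, hv6, by omega⟩
    · obtain ⟨hcop, hle, hv6, hcnt⟩ := ih _ _ _ _ hv3.symm hv hv' hp6
      have hcpc : Nat.Coprime (p' * c) Z :=
        Nat.Coprime.coprime_dvd_left (Dvd.intro_left _ rfl) hcop
      have hcp : Nat.Coprime p' Z := Nat.Coprime.coprime_dvd_left (Dvd.intro _ rfl) hcpc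
      have hcc : Nat.Coprime c Z := Nat.Coprime.coprime_dvd_left (Dvd.intro_left _ rfl) hcpc
      have hprime : p'.Prime := prime_of_coprime (by omega) (by omega) hcp
      have hcle : c ≤ p' - 1 := Nat.le_of_dvd (by omega) hcd'
      have hcprime : c.Prime := prime_of_coprime hc1 (by omega) hcc
      have hS : S3 p' := by
        refine s3_of hprime hp3 hpm ?_ htwo
        intro s hsp hs2 hsd
        by_cases hsc : s ∣ c
        · have : s = c := (Nat.prime_dvd_prime_iff_eq hsp hcprime).1 hsc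
          rw [this]
          exact hc3
        · exact hodd s hsp hs2 hsd hsc
      have := cnt_lt hpp hS
      exact ⟨Nat.Coprime.coprime_dvd_left (Dvd.intro _ rfl) hcop, by omega, hv6, by omega⟩

/-- `Step n a b`: between `a` and `b` there are at least `n` elements -/
def Step (n a b : ℕ) : Prop := n + cnt a ≤ cnt b

theorem Step.trans {m n a b c : ℕ} (h1 : Step m a b) (h2 : Step n b c) : Step (m + n) a c := by
  unfold Step at *
  omega

/-- the check used for the chunks -/
def chk (n D p v : ℕ) : Bool :=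
  Nat.beq (run n D p 1) v

theorem step_of {n D p v : ℕ} (h : chk n D p v = true) (hp : p % 6 = 5) (hv : v ≠ 0)
    (hv' : v < 51739249) : Step n p v :=
  (run_spec n D p 1 v (Nat.eq_of_beq_eq_true h) hv hv' hp).2.2.2

end Q262.Neg3
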