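import Pool.Agent.Q262.Neg3.C00
import Pool.Agent.Q262.Neg3.C01
import Pool.Agent.Q262.Neg3.C02
import Pool.Agent.Q262.Neg3.C03
import Pool.Agent.Q262.Neg3.C04
import Pool.Agent.Q262.Neg3.C05
import Pool.Agent.Q262.Neg3.C06
import Pool.Agent.Q262.Neg3.C07
import Pool.Agent.Q262.Neg3.C08
import Pool.Agent.Q262.Neg3.C09
import Pool.Agent.Q262.Neg3.C10
import Pool.Agent.Q262.Neg3.C11
import Pool.Agent.Q262.Neg3.C12
import Pool.Agent.Q262.Neg3.C13
import Pool.Agent.Q262.Neg3.C14
import Pool.Agent.Q262.Neg3.C15

/-!
The number of primes up to 51459203 with largest negative primitive root `-3`, and the gap after it.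
-/

set_option autoImplicit false
set_option maxRecDepth 100000

namespace Q262.Neg3

theorem big_step : Step 754346 7187 51459203 := by
  have h0 := C00.all
  have h1 := h0.trans C01.all
  have h2 := h1.trans C02.all
  have h3 := h2.trans C03.all
  have h4 := h3.trans C04.all
  have h5 := h4.trans C05.all
  have h6 := h5.trans C06.all
  have h7 := h6.trans C07.all
  have h8 := h7.trans C08.all
  have h9 := h8.trans C09.all
  have h10 := h9.trans C10.all
  have h11 := h10.trans C11.all
  have h12 := h11.trans C12.all
  have h13 := h12.trans C13.all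
  have h14 := h13.trans C14.all
  have h15 := h14.trans C15.all
  exact h15

theorem cnt_ge : 754346 ≤ cnt 51459203 := by
  have := big_step
  unfold Step at this
  omega

end Q262.Neg3
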